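import Pool.Agent.Run7.h420.TM.Stm

/-!
Project TM: the assembly.
-/

set_option autoImplicit false

namespace Pool.Agent.Run7.h420.TM

open MeasureTheory Filter Topology Set

/-- Popa's cocycle superrigidity for the circle shift of a Kazhdan group, countable targets. -/
def S_SUPER : Prop :=
  ∀ (G : Type) [Group G] [Countable G] [Infinite G], PropertyT G →
    ∀ (L : Type) [Group L] [Countable L] (w : G → XX G → L), Cocycle G (XX G) L w →
      ∃ (A : XX G → L) (δ : G →* L), CM A ∧
        ∀ g : G, ∀ᵐ x ∂(muX G), w g x = A (g • x) * δ g * (A x)⁻¹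

theorem t_SUPER (hP : S_PROBS) (hB : S_MIXBERN) (hPair : S_PAIR) (hSplit : S_SPLIT)
    (hHom : S_HOM) : S_SUPER := by
  intro G _ _ _ hT L _ _ w hw
  have hmix : Mixing G (XX G) (muX G) := hB G UnitAddCircle _ hP.1
  obtain ⟨φ, hφ, hφw⟩ := hPair G hT L w hw
  obtain ⟨A, B, hA, hBm, hAB⟩ := hSplit G (XX G) L (muX G) w φ hmix hw hφ hφw
  exact hHom G (XX G) L (muX G) w φ hmix hw hφw A B hA hBm hAB

theorem t_STAB (hA : S_STABA) (hB : S_STABB) :
    ∀ (G X Y : Type) [Group G] [Countable G] [Infinite G] [MulAction G X] [MeasurableSpace X]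
    [MulAction G Y] [MeasurableSpace Y] [StandardBorelSpace Y] (μ : Measure X) (f : X → Y)
    (X0 : Set X), Small G → Setup G X Y μ f X0 →
    ∃ K : Subgroup G, K.Normal ∧ ∀ᵐ x ∂μ, MulAction.stabilizer G (f x) = K := by
  intro G X Y _ _ _ _ _ _ _ _ μ f X0 hS hSet
  obtain ⟨K, -, hK⟩ := hA G X Y μ f X0 hS hSet
  have hN : K.Normal := hB G X Y μ f X0 hS hSet K hK
  refine ⟨K, hN, ?_⟩
  filter_upwards [hK] with x hx
  obtain ⟨h, hh⟩ := hx
  ext g
  constructor
  · intro hg
    have h1 : h * g * h⁻¹ ∈ MulAction.stabilizer G (h • f x) := by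
      rw [MulAction.mem_stabilizer_iff] at hg ⊢
      rw [mul_smul, mul_smul, inv_smul_smul, hg]
    rw [hh] at h1
    have h2 := hN.conj_mem _ h1 h⁻¹
    simpa [mul_assoc] using h2
  · intro hg
    have h2 := hN.conj_mem _ hg h
    rw [← hh, MulAction.mem_stabilizer_iff, mul_smul, mul_smul, inv_smul_smul] at h2
    rw [MulAction.mem_stabilizer_iff]
    exact MulAction.injective h h2

/-- The contradiction for abstract data. -/
theorem t_CORE (hSup : S_SUPER) (hEF : S_ERGF) (hOnto : S_ONTO) (hOrb : S_ORB) (hA : S_STABA)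
    (hB : S_STABB) (hCoc : S_COC) (hTw : S_TWIST) (hNad : S_NAD) :
    ∀ (G Y : Type) [Group G] [Countable G] [Infinite G]
    [MulAction G Y] [MeasurableSpace Y] [StandardBorelSpace Y] (f : XX G → Y)
    (X0 : Set (XX G)) (c : Y → Y), PropertyT G → Small G → Setup G (XX G) Y (muX G) f X0 →
    Measurable c → Function.Injective c → (∀ y : Y, c y ∈ MulAction.orbit G y) →
    (∀ y : Y, ∃ z ∈ MulAction.orbit G y, ∀ w : Y, c w ≠ z) → False := by
  intro G Y _ _ _ _ _ _ f X0 c hT hS hSet hcm hci hco hcz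
  obtain ⟨K, hN, hK⟩ := t_STAB hA hB G (XX G) Y (muX G) f X0 hS hSet
  have := hN
  obtain ⟨w, hw, hwf⟩ := hCoc G (XX G) Y (muX G) f X0 hSet K hK
  have : Countable (G ⧸ K) := (QuotientGroup.mk_surjective (s := K)).countable
  obtain ⟨A, δ, hAm, hwδ⟩ := hSup G hT (G ⧸ K) w hw
  obtain ⟨f', hf'm, hf'o, hf'⟩ := hTw G (XX G) Y (muX G) f X0 hSet K w A δ hwf hAm hwδ
  have : IsProbabilityMeasure (muX G) := hSet.mix.prob
  have hker : (δ.ker : Set G).Finite := by
    by_contra hinf
    have hinf' : (δ.ker : Set G).Infinite := hinf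
    obtain ⟨y, hy⟩ := hEF G (XX G) Y (muX G) (δ.ker : Set G) f' hSet.mix hinf' hf'm (by
      intro g hg
      have h1 : ((1 : G) : G ⧸ K) = δ g := by
        have : δ g = 1 := hg
        rw [this]; rfl
      filter_upwards [hf' g 1 h1] with x hx
      rw [hx, one_smul])
    apply hOrb G (XX G) Y (muX G) f X0 hSet y
    filter_upwards [hy] with x hx
    have := hf'o x
    rwa [hx] at this
  have honto := hOnto G hT hS K δ hker
  have : IsProbabilityMeasure ((muX G).map f') := Measure.isProbabilityMeasure_map hf'm.aemeasurable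
  refine hNad G Y ((muX G).map f') c inferInstance hSet.smulY ?_ hcm hci hco hcz
  intro d U hU
  obtain ⟨g, hg⟩ := honto (d : G ⧸ K)
  have h1 := hf' g d hg.symm
  rw [Measure.map_apply hf'm (hSet.smulY d hU), Measure.map_apply hf'm hU]
  have h2 : (muX G) ((fun x : XX G => g • x) ⁻¹' (f' ⁻¹' U)) = (muX G) (f' ⁻¹' U) :=
    (hSet.mix.pres g).measure_preimage (hf'm hU).nullMeasurableSet
  rw [← h2]
  apply measure_congr
  filter_upwards [h1] with x hx
  apply propext
  show d • f' x ∈ U ↔ f' (g • x) ∈ U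
  rw [hx]

/-- The free part of the circle shift. -/
def Fr (G : Type) [Group G] : Set (XX G) := {x : XX G | ∀ g : G, g • x = x → g = 1}

theorem Fr_inv {G : Type} [Group G] (g : G) (x : XX G) (hx : x ∈ Fr G) : g • x ∈ Fr G := by
  intro h hh
  have h1 : (g⁻¹ * h * g) • x = x := by
    rw [mul_smul, mul_smul, hh, inv_smul_smul]
  have h2 := hx _ h1
  have h3 : h = g * (g⁻¹ * h * g) * g⁻¹ := by group
  rw [h3, h2]; group

instance frAct (G : Type) [Group G] : MulAction G (Fr G) where
  smul g x := ⟨g • (x : XX G), Fr_inv g x x.2⟩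
  one_smul x := Subtype.ext (one_smul G (x : XX G))
  mul_smul g h x := Subtype.ext (mul_smul g h (x : XX G))

theorem fr_coe {G : Type} [Group G] (g : G) (x : Fr G) : ((g • x : Fr G) : XX G) = g • (x : XX G) := rfl

instance (G : Type) [Countable G] : StandardBorelSpace (XX G) :=
  inferInstanceAs (StandardBorelSpace (G → UnitAddCircle))

theorem fr_orbit {G : Type} [Group G] (x x' : Fr G) :
    x' ∈ MulAction.orbit G x ↔ (x' : XX G) ∈ MulAction.orbit G (x : XX G) := by
  constructor
  · rintro ⟨g, hg⟩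
    refine ⟨g, ?_⟩
    show g • (x : XX G) = x'
    rw [← fr_coe]
    exact congrArg Subtype.val hg
  · rintro ⟨g, hg⟩
    exact ⟨g, Subtype.ext hg⟩

theorem fr_inf {G : Type} [Group G] [Infinite G] (x : Fr G) : (MulAction.orbit G x).Infinite := by
  have hinj : Function.Injective (fun g : G => g • x) := by
    intro g h hgh
    have h1 : (h⁻¹ * g) • (x : XX G) = x := by
      have := congrArg Subtype.val hgh
      have h2 : g • (x : XX G) = h • (x : XX G) := this
      rw [mul_smul, h2, inv_smul_smul]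
    have h3 := x.2 _ h1
    exact (inv_mul_eq_one.mp h3).symm
  exact Set.infinite_range_of_injective hinj

/-- The main theorem from the pieces. -/
theorem t_MAIN (hP : S_PROBS) (hMB : S_MIXBERN) (hSup : S_SUPER) (hEF : S_ERGF)
    (hOnto : S_ONTO) (hOrb : S_ORB) (hA : S_STABA)
    (hB : S_STABB) (hCoc : S_COC) (hTw : S_TWIST) (hNad : S_NAD) (hFree : S_FREE)
    (hNull : S_NULL) :
    ∀ (G : Type) [Group G] [Countable G] [Infinite G], PropertyT G → Small G →
      ¬ DynCompressible G := by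
  classical
  intro G _ _ _ hT hS hdc
  obtain ⟨hm, hn⟩ := hFree G
  have hm' : MeasurableSet (Fr G) := hm
  have hn' : (muX G) (Fr G)ᶜ = 0 := hn
  have : StandardBorelSpace (Fr G) := hm'.standardBorel
  have hmix : Mixing G (XX G) (muX G) := hMB G UnitAddCircle _ hP.1
  have : IsProbabilityMeasure (muX G) := hmix.prob
  obtain ⟨Y, iY, iY', iA, hYm, hYinf, ⟨c, hcm, hci, hco, hcz⟩, f, hfm, hf⟩ :=
    hdc (Fr G) (fun g => (((hmix.pres g).measurable.comp measurable_subtype_coe).subtype_mk))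
      fr_inf
  have hne : (Fr G).Nonempty := by
    by_contra h
    rw [Set.not_nonempty_iff_eq_empty] at h
    rw [h, Set.compl_empty, measure_univ] at hn'
    exact one_ne_zero hn'
  obtain ⟨x₀, hx₀⟩ := hne
  let F : XX G → Y := fun x => if h : x ∈ Fr G then f ⟨x, h⟩ else f ⟨x₀, hx₀⟩
  have hF : ∀ (x : XX G) (h : x ∈ Fr G), F x = f ⟨x, h⟩ := fun x h => dif_pos h
  have hFm : Measurable F := Measurable.dite hfm measurable_const hm'
  refine t_CORE hSup hEF hOnto hOrb hA hB hCoc hTw hNad G Y F (Fr G) c hT hS ?_ hcm hci hco hcz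
  refine ⟨hmix, hNull G, hYm, hYinf, hFm, hm', hn', Fr_inv, ?_⟩
  intro x hx x' hx'
  rw [hF x hx, hF x' hx', ← hf, fr_orbit]

end Pool.Agent.Run7.h420.TM
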