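import Mathlib

/-!
Project TM: definitions.  Groups with property (T) all of whose proper subgroups are finite or
cyclic are not dynamically compressible.
-/

set_option autoImplicit false

namespace Pool.Agent.Run7.h420.TM

open MeasureTheory Filter Topology Set

/-- Kazhdan's property (T): some Kazhdan pair `(S, ε)` exists.  Unitary representations are
homomorphisms into the linear isometric automorphisms of a complex Hilbert space. -/
def PropertyT (G : Type) [Group G] : Prop :=
  ∃ (S : Finset G) (ε : ℝ), 0 < ε ∧
    ∀ (H : Type) [NormedAddCommGroup H] [InnerProductSpace ℂ H] [CompleteSpace H]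
      (π : G →* (H ≃ₗᵢ[ℂ] H)),
      (∃ v : H, ‖v‖ = 1 ∧ ∀ s ∈ S, ‖π s v - v‖ < ε) → ∃ u : H, u ≠ 0 ∧ ∀ g : G, π g u = u

/-- Dynamical compressibility, word for word as in the frozen statement of the page. -/
def DynCompressible (G : Type) [Group G] : Prop :=
    ∀ (X : Type) [MeasurableSpace X] [StandardBorelSpace X] [MulAction G X],
      (∀ g : G, Measurable (fun x : X => g • x)) →
      (∀ x : X, (MulAction.orbit G x).Infinite) →
      ∃ (Y : Type) (_ : MeasurableSpace Y) (_ : StandardBorelSpace Y) (_ : MulAction G Y),
        (∀ g : G, Measurable (fun y : Y => g • y)) ∧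
        (∀ y : Y, (MulAction.orbit G y).Infinite) ∧
        (∃ c : Y → Y, Measurable c ∧ Function.Injective c ∧
          (∀ y : Y, c y ∈ MulAction.orbit G y) ∧
          (∀ y : Y, ∃ z ∈ MulAction.orbit G y, ∀ w : Y, c w ≠ z)) ∧
        (∃ f : X → Y, Measurable f ∧
          ∀ x x' : X, (x' ∈ MulAction.orbit G x ↔ f x' ∈ MulAction.orbit G (f x)))

/-- A measure preserving mixing action on a probability space. -/
structure Mixing (G X : Type) [Group G] [MulAction G X] [MeasurableSpace X]
    (μ : Measure X) : Prop where
  prob : IsProbabilityMeasure μ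
  pres : ∀ g : G, MeasurePreserving (fun x : X => g • x) μ μ
  mix : ∀ A B : Set X, MeasurableSet A → MeasurableSet B →
    Tendsto (fun g : G => μ.real (A ∩ (fun x : X => g • x) ⁻¹' B)) cofinite
      (𝓝 (μ.real A * μ.real B))

/-- All level sets are measurable (this is measurability for maps to a countable discrete
set; no measurable structure on the target is used). -/
def CM {X L : Type} [MeasurableSpace X] (φ : X → L) : Prop := ∀ l : L, MeasurableSet {x | φ x = l}

/-- An exact measurable cocycle with values in a group. -/
structure Cocycle (G X L : Type) [Group G] [MulAction G X] [MeasurableSpace X] [Group L]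
    (w : G → X → L) : Prop where
  meas : ∀ g : G, CM (w g)
  mul : ∀ (g h : G) (x : X), w (g * h) x = w g (h • x) * w h x

/-- Two cocycles are cohomologous almost everywhere. -/
def Cohom {G X L : Type} [Group G] [MulAction G X] [MeasurableSpace X] [Group L]
    (μ : Measure X) (w₁ w₂ : G → X → L) : Prop :=
  ∃ φ : X → L, CM φ ∧ ∀ g : G, ∀ᵐ x ∂μ, w₁ g x * φ x = φ (g • x) * w₂ g x

/-- The shift space `B^G` (a type synonym of `G → B`). -/
def Sh (G B : Type) : Type := G → B

instance (G B : Type) [MeasurableSpace B] : MeasurableSpace (Sh G B) :=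
  inferInstanceAs (MeasurableSpace (G → B))

instance (G B : Type) [TopologicalSpace B] : TopologicalSpace (Sh G B) :=
  inferInstanceAs (TopologicalSpace (G → B))

/-- The shift action `(g • x) h = x (h * g)`. -/
instance (G B : Type) [Group G] : MulAction G (Sh G B) where
  smul g x := fun h => x (h * g)
  one_smul x := by
    funext h
    show x (h * 1) = x h
    rw [mul_one]
  mul_smul g g' x := by
    funext h
    show x (h * (g * g')) = x (h * g * g')
    rw [mul_assoc]

theorem smul_apply {G B : Type} [Group G] (g : G) (x : Sh G B) (h : G) :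
    (g • x) h = x (h * g) := rfl

/-- The Bernoulli measure. -/
noncomputable def bern (G : Type) {B : Type} [MeasurableSpace B] (ν : Measure B) :
    Measure (Sh G B) := Measure.infinitePi (fun _ : G => ν)

/-- The circle shift. -/
abbrev XX (G : Type) : Type := Sh G UnitAddCircle

/-- The Bernoulli measure of the circle shift. -/
noncomputable abbrev muX (G : Type) : Measure (XX G) := bern G (volume : Measure UnitAddCircle)

/-- The shift over the reals. -/
abbrev YY (G : Type) : Type := Sh G ℝ

/-- Its Bernoulli measure with base `Lebesgue on (0,1]`. -/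
noncomputable abbrev muY (G : Type) : Measure (YY G) :=
  bern G (volume.restrict (Set.Ioc (0 : ℝ) 1))

/-- The deformation `(x, y) ↦ x + t y` from `x` (t = 0) to an independent copy (t = 1). -/
def qt (G : Type) (t : ℝ) (p : XX G × YY G) : XX G :=
  fun h => p.1 h + ((t * p.2 h : ℝ) : UnitAddCircle)

/-- The data of a (partial) Borel reduction from a mixing system to the orbit relation of an
action with infinite orbits. -/
structure Setup (G X Y : Type) [Group G] [MulAction G X] [MeasurableSpace X] (μ : Measure X)
    [MulAction G Y] [MeasurableSpace Y] (f : X → Y) (X0 : Set X) : Prop where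
  mix : Mixing G X μ
  null : ∀ C : Set X, C.Countable → μ C = 0
  smulY : ∀ g : G, Measurable (fun y : Y => g • y)
  inf : ∀ y : Y, (MulAction.orbit G y).Infinite
  fmeas : Measurable f
  X0meas : MeasurableSet X0
  X0null : μ X0ᶜ = 0
  X0inv : ∀ (g : G) (x : X), x ∈ X0 → g • x ∈ X0
  red : ∀ x ∈ X0, ∀ x' ∈ X0, (x' ∈ MulAction.orbit G x ↔ f x' ∈ MulAction.orbit G (f x))

end Pool.Agent.Run7.h420.TM
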