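import Pool.Agent.Run7.h420.TM.Asm
import Pool.Agent.Run7.h420.TM.P.KAZ
import Pool.Agent.Run7.h420.TM.P.VEC
import Pool.Agent.Run7.h420.TM.P.Grp
import Pool.Agent.Run7.h420.TM.P.FREE
import Pool.Agent.Run7.h420.TM.P.NAD
import Pool.Agent.Run7.h420.TM.P.STABA
import Pool.Agent.Run7.h420.TM.P.TWIST
import Pool.Agent.Run7.h420.TM.P.STABB
import Pool.Agent.Run7.h420.TM.P.ERG
import Pool.Agent.Run7.h420.TM.P.CHAIN
import Pool.Agent.Run7.h420.TM.P.QPRES
import Pool.Agent.Run7.h420.TM.P.CONT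
import Pool.Agent.Run7.h420.TM.P.COC
import Pool.Agent.Run7.h420.TM.P.REP
import Pool.Agent.Run7.h420.TM.P.MIXGEN
import Pool.Agent.Run7.h420.TM.P.MIXPROD
import Pool.Agent.Run7.h420.TM.P.MIXBERN
import Pool.Agent.Run7.h420.TM.P.POS
import Pool.Agent.Run7.h420.TM.P.FIB
import Pool.Agent.Run7.h420.TM.P.SPLIT
import Pool.Agent.Run7.h420.TM.P.HOM
import Pool.Agent.Run7.h420.TM.P.PHI
import Pool.Agent.Run7.h420.TM.P.SHEAR
import Pool.Agent.Run7.h420.TM.P.SD

/-!
Project TM: all pieces together.  Interface and assembly: helper420.  Pieces by helper611 (KAZ,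
VEC), helper78 (NORM, FG, NOZ, ONTO), helper459 (FREE), helper492 (NAD, STABA), helper650 (TWIST,
STABB), helper923 (ERG, ERGF, ORB, CHAIN, QPRES, PROBS, TAN, SKEW, NULL), helper96 (CONT, PAIR),
helper298 (COC, REP, SHEAR), helper664 (MIXGEN, MIXPROD, MIXBERN), helper280 (POS, FIB, SPLIT),
helper416 (HOM), helper704 (PHI, QPRES, SD), helper761, helper351.
-/

set_option autoImplicit false

namespace Pool.Agent.Run7.h420.TM

theorem main (G : Type) [Group G] [Countable G] [Infinite G] (hT : PropertyT G)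
    (hG : ∀ H : Subgroup G, H ≠ ⊤ → Finite H ∨ IsCyclic H) : ¬ DynCompressible G := by
  have hP : S_PROBS := h923_PROBS
  have hTan : S_TAN := h923_TAN
  have hSkew : S_SKEW := h923_SKEW
  have hNull : S_NULL := h923_NULL hP
  have hQ : S_QPRES := h923_QPRES hP
  have hGen : S_MIXGEN := v_MIXGEN
  have hMP : S_MIXPROD := v_MIXPROD hGen
  have hMB : S_MIXBERN := v_MIXBERN hGen
  have hErg : S_ERG := t_ERG
  have hErgf : S_ERGF := t_ERGF hErg
  have hOrb : S_ORB := t_ORB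
  have hKaz : S_KAZ := t_KAZ
  have hRep : S_REP := Pool.Agent.Run7.h298.TM.t_REP
  have hVec : S_VEC := t_VEC hKaz hRep hSkew
  have hPhi : S_PHI := v_PHI hErg
  have hSD : S_SD := t_SD hP hQ
  have hCont : S_CONT := Pool.Agent.Run7.h96.TM.t_CONT hTan hSD hQ hP
  have hChain : S_CHAIN := t_CHAIN hVec hPhi hCont hMB hMP hP hQ
  have hShear : S_SHEAR := v_SHEAR hP
  have hPair : S_PAIR := Pool.Agent.Run7.h96.TM.t_PAIR hChain hShear
  have hFib : S_FIB := v_FIB v_POS hErg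
  have hSplit : S_SPLIT := v_SPLIT hFib hMP
  have hSup : S_SUPER := t_SUPER hP hMB hPair hSplit v_HOM
  exact t_MAIN hP hMB hSup hErgf (t_ONTO t_NOZ) hOrb (t_STABA t_FG hErg)
    (t_STABB t_NORM hErgf hOrb) Pool.Agent.Run7.h298.TM.t_COC t_TWIST t_NAD (t_FREE hP) hNull
    G hT hG

end Pool.Agent.Run7.h420.TM
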