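import Pool.Agent.Run7.h420.TM.Defs

/-!
Project TM: the pieces.  Every piece is a closed `Prop` `S_XXX` with a complete proof in its doc
string.  Prove `theorem t_XXX : (S_YYY →)* S_XXX` in `Pool/Agent/Run7/h<k>/TM/XXX.lean`,
namespace `Pool.Agent.Run7.h420.TM`.
-/

set_option autoImplicit false

namespace Pool.Agent.Run7.h420.TM

open MeasureTheory Filter Topology Set

/-- TAN (Tannery for measures, 25 lines, no hypotheses).
`P.real (⋃ k, D i k) ≤ ∑' k, P.real (D i k)` (the series converges by comparison with `c`), and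
the sum tends to `∑' k, 0 = 0` by `tendsto_tsum_of_dominated_convergence`; squeeze. -/
def S_TAN : Prop :=
  ∀ (Ω ι L : Type) [MeasurableSpace Ω] [Countable L] (P : Measure Ω) [IsFiniteMeasure P]
    (l : Filter ι) (D : ι → L → Set Ω) (c : L → ℝ),
    Summable c → (∀ i k, P.real (D i k) ≤ c k) →
    (∀ k, Tendsto (fun i => P.real (D i k)) l (𝓝 0)) →
    Tendsto (fun i => P.real (⋃ k, D i k)) l (𝓝 0)

/-- MIXGEN (80 lines, no hypotheses).  Mixing need only be checked on a generating pi-system.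
Two applications of `MeasurableSpace.induction_on_inter` (same scheme).  Step 1: fix `A ∈ C`; the
class of measurable `B` with `μ.real (A ∩ g⁻¹B) → μ.real A * μ.real B` contains the empty set and
`C`; complements: `μ.real (A ∩ g⁻¹Bᶜ) = μ.real A - μ.real (A ∩ g⁻¹B)`; disjoint unions:
`μ.real (A ∩ g⁻¹ ⋃ B_n) = ∑' n, μ.real (A ∩ g⁻¹B_n)`, each term is at most
`μ.real (g⁻¹B_n) = μ.real B_n` which is summable, so `tendsto_tsum_of_dominated_convergence`
applies, and `∑' μ.real A * μ.real B_n = μ.real A * μ.real (⋃ B_n)`.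
Step 2: fix a measurable `B`; the class of `A`: same, with bound `μ.real A_n`. -/
def S_MIXGEN : Prop :=
  ∀ (G X : Type) [Group G] [MulAction G X] [mX : MeasurableSpace X] (μ : Measure X)
    (C : Set (Set X)), IsProbabilityMeasure μ →
    (∀ g : G, MeasurePreserving (fun x : X => g • x) μ μ) →
    mX = MeasurableSpace.generateFrom C → IsPiSystem C →
    (∀ A ∈ C, ∀ B ∈ C, Tendsto (fun g : G => μ.real (A ∩ (fun x : X => g • x) ⁻¹' B)) cofinite
      (𝓝 (μ.real A * μ.real B))) →
    Mixing G X μ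

/-- MIXPROD (50 lines, hypothesis S_MIXGEN).  Products of mixing actions are mixing.  Use
MIXGEN with `C` the rectangles (`generateFrom_prod`, `isPiSystem_prod`):
`(A₁×A₂) ∩ g⁻¹(B₁×B₂) = (A₁ ∩ g⁻¹B₁) × (A₂ ∩ g⁻¹B₂)`, `measureReal_prod_prod`, product of the
two limits.  `MeasurePreserving.prod` for the invariance. -/
def S_MIXPROD : Prop :=
  ∀ (G X Z : Type) [Group G] [MulAction G X] [MulAction G Z] [MeasurableSpace X]
    [MeasurableSpace Z] (μ : Measure X) (ν : Measure Z), Mixing G X μ → Mixing G Z ν →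
    Mixing G (X × Z) (μ.prod ν)

/-- MIXBERN (90 lines, hypothesis S_MIXGEN).  Bernoulli shifts are mixing.  Invariance of
`bern G ν = Measure.infinitePi (fun _ => ν)` under `(g • x) h = x (h * g)`: `eq_infinitePi` (or
`infinitePi_map_piCongrLeft`).  `C` = `squareCylinders` of measurable sets
(`isPiSystem_squareCylinders`, `generateFrom_squareCylinders`).  For `A = s.pi a`, `B = t.pi b`
with `s t : Finset G`: `g⁻¹B = {x | ∀ i ∈ t, x (i * g) ∈ b i}` is the box over `t * g` with sides
`b (j * g⁻¹)`.  For all `g` outside the finite set `{i⁻¹ * j | i ∈ t, j ∈ s}` the sets `s` and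
`t * g` are disjoint and `infinitePi_pi` gives `μ (A ∩ g⁻¹B) = μ A * μ B`: the sequence is
eventually constant along `cofinite`. -/
def S_MIXBERN : Prop :=
  ∀ (G B : Type) [Group G] [MeasurableSpace B] (ν : Measure B), IsProbabilityMeasure ν →
    Mixing G (Sh G B) (bern G ν)

/-- ERG (35 lines, no hypotheses).  For `g ∈ N`, `A ∩ g⁻¹A` and `A` agree a.e., so
`μ.real (A ∩ g⁻¹A) = μ.real A` for infinitely many `g` (frequently along `cofinite`); the limit
is `μ.real A * μ.real A`; hence `μ.real A = (μ.real A)^2`. -/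
def S_ERG : Prop :=
  ∀ (G X : Type) [Group G] [MulAction G X] [MeasurableSpace X] (μ : Measure X) (N : Set G)
    (A : Set X), Mixing G X μ → N.Infinite → MeasurableSet A →
    (∀ g ∈ N, ∀ᵐ x ∂μ, (g • x ∈ A ↔ x ∈ A)) → μ A = 0 ∨ μ A = 1

/-- ERGF (30 lines, hypothesis S_ERG).  `Filter.exists_eventuallyEq_const_of_forall_separating`
(with `p = MeasurableSet`) and ERG for the sets `f ⁻¹' U`.  (`Nonempty Y`: from the space being
nonempty since `μ` is a probability measure.) -/
def S_ERGF : Prop :=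
  ∀ (G X Y : Type) [Group G] [MulAction G X] [MeasurableSpace X] [MeasurableSpace Y]
    [StandardBorelSpace Y] (μ : Measure X) (N : Set G) (f : X → Y), Mixing G X μ →
    N.Infinite → Measurable f → (∀ g ∈ N, ∀ᵐ x ∂μ, f (g • x) = f x) →
    ∃ y : Y, ∀ᵐ x ∂μ, f x = y

/-- KAZ (80 lines, no hypotheses; Hilbert space).  Let `(S, ε)` be the pair of `PropertyT G` and
`κ = ε / 4`.  `H₀ = {v | ∀ g, π g v = v}` is a closed submodule, `P` the orthogonal projection
(`Submodule.starProjection` or `orthogonalProjection`), `u = P v`, `w = v - u ∈ H₀ᗮ`.  `H₀ᗮ` is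
invariant under all `π g` (for `a ∈ H₀`, `⟪a, π g b⟫ = ⟪π g⁻¹ a, b⟫ = ⟪a, b⟫ = 0`), so `π`
restricts to `G →* (H₀ᗮ ≃ₗᵢ[ℂ] H₀ᗮ)` (build it with `LinearIsometryEquiv.mk`/`ofSurjective`),
which has no nonzero invariant vector (`H₀ ⊓ H₀ᗮ = ⊥`).  If `‖w‖ ≥ 1/4` then `w / ‖w‖` is a unit
vector with `‖π s (w/‖w‖) - w/‖w‖‖ = ‖π s v - v‖ / ‖w‖ < 4 κ = ε`, contradicting (T). -/
def S_KAZ : Prop :=
  ∀ (G : Type) [Group G], PropertyT G → ∃ (S : Finset G) (κ : ℝ), 0 < κ ∧
    ∀ (H : Type) [NormedAddCommGroup H] [InnerProductSpace ℂ H] [CompleteSpace H]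
      (π : G →* (H ≃ₗᵢ[ℂ] H)) (v : H), ‖v‖ = 1 → (∀ s ∈ S, ‖π s v - v‖ < κ) →
      ∃ u : H, (∀ g : G, π g u = u) ∧ ‖v - u‖ < 1 / 4

/-- REP (60 lines, no hypotheses).  The Koopman representation on `L²(m; ℂ)`:
`π g = Lp.compMeasurePreservingₗᵢ ℂ (T g⁻¹) _`; `Lp.coeFn_compMeasurePreserving`; multiplicativity
by `Lp.ext` / a.e. equality (composition with a measure preserving map preserves a.e. equality);
`LinearIsometryEquiv` from the inverse isometry `π g⁻¹`. -/
def S_REP : Prop :=
  ∀ (G Ω : Type) [Group G] [MeasurableSpace Ω] (m : Measure Ω) (T : G → Ω → Ω),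
    (∀ ω, T 1 ω = ω) → (∀ g h ω, T (g * h) ω = T g (T h ω)) →
    (∀ g, MeasurePreserving (T g) m m) →
    ∃ π : G →* (Lp ℂ 2 m ≃ₗᵢ[ℂ] Lp ℂ 2 m), ∀ (g : G) (u : Lp ℂ 2 m),
      (π g u : Ω → ℂ) =ᵐ[m] fun ω => (u : Ω → ℂ) (T g⁻¹ ω)

/-- SKEW (40 lines, no hypotheses).  `MeasurePreserving.skew_product`; for fixed `x` the map
`k ↦ a x * k * (b x)⁻¹` is a bijection of `L`, so it preserves the counting measure. -/
def S_SKEW : Prop :=
  ∀ (W L : Type) [MeasurableSpace W] [Countable L] [Group L] [MeasurableSpace L]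
    [DiscreteMeasurableSpace L] (ν : Measure W) (T : W → W) (a b : W → L),
    IsProbabilityMeasure ν → MeasurePreserving T ν ν → CM a → CM b →
    MeasurePreserving (fun p : W × L => (T p.1, a p.1 * p.2 * (b p.1)⁻¹))
      (ν.prod Measure.count) (ν.prod Measure.count)

/-- VEC (150 lines, hypotheses S_KAZ, S_REP, S_SKEW).  Take `S₀, κ₀` from KAZ, `S = S₀⁻¹`,
`κ = κ₀² / 2`.  Give `L` the measurable space `⊤`; `m = ν.prod count` on `W × L`,
`T g (x, k) = (g • x, w₁ g x * k * (w₂ g x)⁻¹)` is an action (cocycle identities) by measure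
preserving maps (SKEW); `π` from REP; `v` = the indicator of `W × {1}` (`indicatorConstLp`), of
norm one.  `π s v` is a.e. the indicator of `{(x, k) | k = w₁(s⁻¹,x)⁻¹ w₂(s⁻¹,x)}` so
`‖π s v - v‖² = 2 ν {x | w₁ (s⁻¹) x ≠ w₂ (s⁻¹) x} < κ₀²` for `s ∈ S₀`.  KAZ: an invariant `u` with
`‖v - u‖ < 1/4`.  Put `η k x = ‖u (x, k)‖` for a measurable representative of `u`
(`Lp.stronglyMeasurable`).  Invariance under `π g⁻¹` gives `u (T g (x,k)) = u (x,k)` for a.e.
`(x,k)`, i.e. for a.e. `x` and all `k` (`ae_ae_of_ae_prod`, a.e. for `count` = everywhere; or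
countability of `L`).  Chebyshev (`meas_ge_le_mul_pow_eLpNorm` with `p = 2`): the set `Bad` of
`(x, k)` with `‖v - u‖ ≥ 1/2` has `m Bad ≤ 4 · (1/16) = 1/4 < 1`, and the `ν`-measure of
`{x | ∃ k, (x,k) ∈ Bad}` is at most `∑' k, ν {x | (x,k) ∈ Bad} = m Bad` (Tonelli,
`lintegral_count`).  Off this set `η 1 x > 1/2` and `η k x < 1/2` for `k ≠ 1`. -/
def S_VEC : Prop :=
  ∀ (G : Type) [Group G], PropertyT G → ∃ (S : Finset G) (κ : ℝ), 0 < κ ∧
    ∀ (W L : Type) [MulAction G W] [MeasurableSpace W] [Countable L] [Group L] (ν : Measure W)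
      (w₁ w₂ : G → W → L), IsProbabilityMeasure ν →
      (∀ g : G, MeasurePreserving (fun x : W => g • x) ν ν) → Cocycle G W L w₁ →
      Cocycle G W L w₂ → (∀ s ∈ S, ν.real {x | w₁ s x ≠ w₂ s x} < κ) →
      ∃ η : L → W → ℝ, (∀ k, Measurable (η k)) ∧
        (∀ g : G, ∀ᵐ x ∂ν, ∀ k : L, η (w₁ g x * k * (w₂ g x)⁻¹) (g • x) = η k x) ∧
        ν {x | 1 / 2 < η 1 x ∧ ∀ k : L, k ≠ 1 → η k x < 1 / 2} ≠ 0

/-- PHI (70 lines, hypothesis S_ERG).  `E = {x | ∃! k, 1/2 < η k x}` is measurable (countable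
operations), a.e. invariant (the map `k ↦ w₁ g x * k * (w₂ g x)⁻¹` is a bijection) and contains a
non null set, so `ν E = 1` by ERG with `N = univ`.  `φ x` = the unique `k` if `x ∈ E`, and `1`
otherwise.  For a.e. `x`: `x ∈ E`, `g • x ∈ E` (measure preserving), and
`η (w₁ g x * φ x * (w₂ g x)⁻¹) (g • x) > 1/2` so `φ (g • x) = w₁ g x * φ x * (w₂ g x)⁻¹`. -/
def S_PHI : Prop :=
  ∀ (G W L : Type) [Group G] [Infinite G] [MulAction G W] [MeasurableSpace W] [Countable L]
    [Group L] (ν : Measure W) (w₁ w₂ : G → W → L) (η : L → W → ℝ), Mixing G W ν →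
    (∀ k, Measurable (η k)) →
    (∀ g : G, ∀ᵐ x ∂ν, ∀ k : L, η (w₁ g x * k * (w₂ g x)⁻¹) (g • x) = η k x) →
    ν {x | 1 / 2 < η 1 x ∧ ∀ k : L, k ≠ 1 → η k x < 1 / 2} ≠ 0 →
    Cohom ν w₁ w₂

/-- PROBS (15 lines, no hypotheses).  The circle and the interval have mass one. -/
def S_PROBS : Prop :=
  IsProbabilityMeasure (volume : Measure UnitAddCircle) ∧
    IsProbabilityMeasure ((volume : Measure ℝ).restrict (Set.Ioc (0 : ℝ) 1))

/-- QPRES (50 lines, hypothesis S_PROBS).  `qt G t (x, y) = x + κ (t y)` preserves measure: by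
`MeasurePreserving.skew_product` (after swapping the factors) it is enough that for fixed `y` the
map `x ↦ (h ↦ x h + c h)`, `c h = (t * y h : UnitAddCircle)`, preserves `muX G`:
`infinitePi_map_pi` and translation invariance of `volume` on the circle; then compose with
`measurePreserving_snd`. -/
def S_QPRES : Prop :=
  ∀ (G : Type) [Group G] [Countable G] (t : ℝ),
    MeasurePreserving (qt G t) ((muX G).prod (muY G)) (muX G)

/-- SD (70 lines, hypotheses S_PROBS, S_QPRES).  Mathlib's
`MeasureTheory.tendsto_measure_symmDiff_preimage_nhds_zero` for the family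
`t ↦ (qt G t : C(XX G × YY G, XX G))`, continuous in the compact-open topology because
`(t, p) ↦ qt G t p` is jointly continuous (`ContinuousMap.curry`).  The topologies are those of
`G → UnitAddCircle`, `G → ℝ` (`inferInstanceAs`), countable products of Polish spaces;
`InnerRegularCompactLTTop` of the finite measure on the Polish space `XX G × YY G` from
`innerRegular_isCompact_isClosed_measurableSet_of_finite`
(Mathlib.MeasureTheory.Measure.RegularityCompacts). -/
def S_SD : Prop :=
  ∀ (G : Type) [Group G] [Countable G] (t₀ : ℝ) (A : Set (XX G)), MeasurableSet A →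
    Tendsto (fun t => ((muX G).prod (muY G)).real
      (symmDiff (qt G t ⁻¹' A) (qt G t₀ ⁻¹' A))) (𝓝 t₀) (𝓝 0)

/-- CONT (50 lines, hypotheses S_TAN, S_SD, S_QPRES, S_PROBS).
`{p | h (qt t p) ≠ h (qt t₀ p)}` is contained in the union over `l` of the symmetric differences
of `qt t ⁻¹' {h = l}` and `qt t₀ ⁻¹' {h = l}`; each has measure at most `2 * μ.real {h = l}`
(QPRES), which is summable (the level sets are disjoint), and tends to `0` by SD.  TAN. -/
def S_CONT : Prop :=
  ∀ (G L : Type) [Group G] [Countable G] [Countable L] (h : XX G → L) (t₀ : ℝ), CM h →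
    Tendsto (fun t => ((muX G).prod (muY G)).real {p | h (qt G t p) ≠ h (qt G t₀ p)})
      (𝓝 t₀) (𝓝 0)

/-- CHAIN (90 lines, hypotheses S_VEC, S_PHI, S_CONT, S_MIXBERN, S_MIXPROD, S_PROBS, S_QPRES).
Put `v t g p = w g (qt G t p)`; this is a cocycle on `XX G × YY G` since
`qt G t (g • p) = g • qt G t p` (rfl) and `qt G t` is measurable.  By VEC and PHI there are
`S, κ` such that `v t`, `v t₀` are cohomologous whenever the probability of `v t s ≠ v t₀ s` is
less than `κ` for the finitely many `s ∈ S`; by CONT this holds for all `t` near `t₀`.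
`Cohom` is an equivalence relation on cocycles (transitive: `w₁ φ = φ(g·) w₂`,
`w₂ ψ = ψ(g·) w₃` give `w₁ (φψ) = (φψ)(g·) w₃`; symmetric: `φ⁻¹`), so `{t | Cohom (v t) (v 0)}` is
open with open complement; `ℝ` is connected (`IsClopen.eq_univ`). -/
def S_CHAIN : Prop :=
  ∀ (G : Type) [Group G] [Countable G] [Infinite G], PropertyT G →
    ∀ (L : Type) [Group L] [Countable L] (w : G → XX G → L), Cocycle G (XX G) L w →
      Cohom ((muX G).prod (muY G)) (fun g p => w g (qt G 1 p)) (fun g p => w g (qt G 0 p))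

/-- SHEAR (70 lines, hypothesis S_PROBS).  Let `ρ₀ : UnitAddCircle → ℝ` be the representative in
`(0,1]` (`AddCircle.equivIoc`, `AddCircle.measurePreserving_equivIoc`,
`AddCircle.measurableEquivIoc`), measure preserving onto `volume.restrict (Ioc 0 1)`, with
`(ρ₀ z : UnitAddCircle) = z`.  `R (x, z) = (x, h ↦ ρ₀ (z h - x h))`.
`MeasurePreserving.skew_product`: for fixed `x` the map `z ↦ (h ↦ ρ₀ (z h - x h))` is coordinate
wise, `infinitePi_map_pi`. -/
def S_SHEAR : Prop :=
  ∀ (G : Type) [Group G] [Countable G], ∃ R : XX G × XX G → XX G × YY G,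
    MeasurePreserving R ((muX G).prod (muX G)) ((muX G).prod (muY G)) ∧
    (∀ (g : G) (p : XX G × XX G), R (g • p) = g • R p) ∧
    (∀ p, qt G 0 (R p) = p.1) ∧ (∀ p, qt G 1 (R p) = p.2)

/-- PAIR (30 lines, hypotheses S_CHAIN, S_SHEAR).  Compose the `φ` of CHAIN with `R`
(`MeasurePreserving.quasiMeasurePreserving.ae`). -/
def S_PAIR : Prop :=
  ∀ (G : Type) [Group G] [Countable G] [Infinite G], PropertyT G →
    ∀ (L : Type) [Group L] [Countable L] (w : G → XX G → L), Cocycle G (XX G) L w →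
      ∃ φ : XX G × XX G → L, CM φ ∧ ∀ g : G, ∀ᵐ p ∂((muX G).prod (muX G)),
        w g p.2 * φ p = φ (g • p) * w g p.1

/-- POS (50 lines, no hypotheses).  If the measure were zero then for a.e. `z` the set
`{(x,x') | h (z,x) = h (z,x')}` is `μ.prod μ`-null (`measure_prod_null`); but some `l` has
`μ {x | h (z,x) = l} > 0` (countable union is everything) and the set contains the square of it,
of measure `(μ {..})^2 > 0`. -/
def S_POS : Prop :=
  ∀ (Z X L : Type) [MeasurableSpace Z] [MeasurableSpace X] [Countable L] (ζ : Measure Z)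
    (μ : Measure X) (h : Z × X → L), IsProbabilityMeasure ζ → IsProbabilityMeasure μ → CM h →
    (ζ.prod (μ.prod μ)) {q : Z × (X × X) | h (q.1, q.2.1) = h (q.1, q.2.2)} ≠ 0

/-- FIB (60 lines, hypotheses S_POS, S_ERG).  The set of POS is measurable and a.e. invariant:
the two maps `(z,(x,x')) ↦ (z,x)`, `(z,x')` are measure preserving to `ζ.prod μ`, so for a.e.
`(z,(x,x'))`, `h (g z, g x) = a g z * h (z,x) * b g z` and the same for `x'`, whence equality of
the values at `g q` iff equality at `q`.  By POS and ERG (`N = univ`) it has measure one. -/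
def S_FIB : Prop :=
  ∀ (G Z X L : Type) [Group G] [Infinite G] [MulAction G Z] [MulAction G X]
    [MeasurableSpace Z] [MeasurableSpace X] [Group L] [Countable L] (ζ : Measure Z)
    (μ : Measure X) (h : Z × X → L) (a b : G → Z → L), IsProbabilityMeasure ζ →
    IsProbabilityMeasure μ → Mixing G (Z × (X × X)) (ζ.prod (μ.prod μ)) → CM h →
    (∀ g : G, ∀ᵐ q ∂(ζ.prod μ), h (g • q) = a g q.1 * h q * b g q.1) →
    ∀ᵐ q ∂(ζ.prod (μ.prod μ)), h (q.1, q.2.1) = h (q.1, q.2.2)

/-- SPLIT (90 lines, hypotheses S_FIB, S_MIXPROD).  Apply FIB with `Z = X × X ∋ (x, x')`,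
`h ((x,x'),y) = (φ (x',y))⁻¹ * φ (x,y)`: from `φ (g x, g y) = w g y * φ (x,y) * (w g x)⁻¹` one gets
`h (g ·) = w g x' * h * (w g x)⁻¹`.  So for a.e. `(x,x',y,y')`:
`(φ (x',y))⁻¹ * φ (x,y) = (φ (x',y'))⁻¹ * φ (x,y')`.  By Fubini there are `x', y'` for which this
holds for a.e. `(x,y)`.  `B y = φ (x',y)`, `A x = (φ (x',y'))⁻¹ * φ (x,y')`. -/
def S_SPLIT : Prop :=
  ∀ (G X L : Type) [Group G] [Infinite G] [MulAction G X] [MeasurableSpace X]
    [Group L] [Countable L] (μ : Measure X) (w : G → X → L) (φ : X × X → L), Mixing G X μ →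
    Cocycle G X L w → CM φ →
    (∀ g : G, ∀ᵐ p ∂(μ.prod μ), w g p.2 * φ p = φ (g • p) * w g p.1) →
    ∃ A B : X → L, CM A ∧ CM B ∧ ∀ᵐ p ∂(μ.prod μ), φ p = B p.2 * A p.1

/-- HOM (90 lines, no hypotheses).  For fixed `g` and a.e. `(x,y)`:
`w g y * B y * A x = B (g y) * A (g x) * w g x`, so
`(B (g y))⁻¹ * w g y * B y = A (g x) * w g x * (A x)⁻¹` for a.e. `(x,y)`.  By Fubini there is an `x`
such that this holds for a.e. `y`; call the constant right side `δ g`.  So
`w g y = B (g y) * δ g * (B y)⁻¹` for a.e. `y`.  `δ` is multiplicative: take one `y` for which the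
identities for `g h` at `y`, `g` at `h • y`, `h` at `y` hold (`h •` preserves null sets) and use the
cocycle identity.  `MonoidHom.mk'`.  The `A` of the conclusion is `B`. -/
def S_HOM : Prop :=
  ∀ (G X L : Type) [Group G] [Infinite G] [MulAction G X] [MeasurableSpace X]
    [Group L] [Countable L] (μ : Measure X) (w : G → X → L) (φ : X × X → L), Mixing G X μ →
    Cocycle G X L w →
    (∀ g : G, ∀ᵐ p ∂(μ.prod μ), w g p.2 * φ p = φ (g • p) * w g p.1) →
    ∀ A B : X → L, CM A → CM B → (∀ᵐ p ∂(μ.prod μ), φ p = B p.2 * A p.1) →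
    ∃ (A : X → L) (δ : G →* L), CM A ∧ ∀ g : G, ∀ᵐ x ∂μ, w g x = A (g • x) * δ g * (A x)⁻¹

/-- All proper subgroups are finite or cyclic. -/
def Small (G : Type) [Group G] : Prop := ∀ H : Subgroup G, H ≠ ⊤ → Finite H ∨ IsCyclic H

/-- NORM (60 lines, no hypotheses, group theory).  `N` = the normaliser of `K` is proper.  If `N`
is finite take `F = N`, `k = 1`.  Otherwise `N` is infinite cyclic, generated by `a`, and `K ≠ ⊥`
(`⊥` is normal), `K ≤ N`, so `a ^ m ∈ K` for some `m > 0`; `F = {a ^ i | 0 ≤ i < m}`. -/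
def S_NORM : Prop :=
  ∀ (G : Type) [Group G], Small G → ∀ K : Subgroup G, ¬ K.Normal →
    ∃ F : Set G, F.Finite ∧ ∀ c : G, (∀ k : G, k ∈ K ↔ c * k * c⁻¹ ∈ K) →
      ∃ d ∈ F, ∃ k ∈ K, c = d * k

/-- FG (20 lines, no hypotheses). -/
def S_FG : Prop :=
  ∀ (G : Type) [Group G], Small G → ∀ K : Subgroup G, K ≠ ⊤ →
    ∃ F : Finset G, Subgroup.closure (F : Set G) = K

/-- NOZ (60 lines, no hypotheses).  If `χ g₀ ≠ 1`, choose a real `θ > 0` so small that
`|exp (i θ n) - 1| < ε` for the finitely many `n = χ s`, `s ∈ S`, and `θ |χ g₀| < 1`.  The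
representation `π g z = exp (i θ χ g) z` on `H = ℂ` has the unit vector `1` moved by less than
`ε`, so (T) gives `u ≠ 0` fixed by all `g`, so `exp (i θ χ g₀) = 1`, impossible.
(`Circle.exp`, `rotation : Circle →* (ℂ ≃ₗᵢ[ℝ] ℂ)` is only real linear; use
`LinearIsometryEquiv` of multiplication by a unit complex number.) -/
def S_NOZ : Prop :=
  ∀ (G : Type) [Group G], PropertyT G → ∀ (χ : G →* Multiplicative ℤ) (g : G), χ g = 1

/-- ONTO (80 lines, hypothesis S_NOZ, group theory).  `R` = preimage in `G` of the range of `δ`.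
If `R ≠ ⊤` then `R` is finite or cyclic, hence so is the range of `δ`.  If the range is finite,
`G` is finite since `ker δ` is (contradiction).  If it is infinite cyclic it is isomorphic to
`Multiplicative ℤ` and composing gives a nontrivial `χ : G →* Multiplicative ℤ`, contradicting
NOZ.  So `R = ⊤` and `δ` is onto. -/
def S_ONTO : Prop :=
  ∀ (G : Type) [Group G] [Infinite G], PropertyT G → Small G →
    ∀ (K : Subgroup G) [K.Normal] (δ : G →* G ⧸ K), (δ.ker : Set G).Finite →
      ∀ q : G ⧸ K, ∃ g : G, δ g = q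

/-- ORB (30 lines, no hypotheses).  If `f x ∈ orbit G y₀` for a.e. `x` then the conull set of such
`x` in `X0` lies in one orbit by `Setup.red`, so it is countable, so it is null. -/
def S_ORB : Prop :=
  ∀ (G X Y : Type) [Group G] [Countable G] [MulAction G X] [MeasurableSpace X]
    [MulAction G Y] [MeasurableSpace Y] (μ : Measure X) (f : X → Y)
    (X0 : Set X), Setup G X Y μ f X0 → ∀ y₀ : Y,
    ¬ (∀ᵐ x ∂μ, f x ∈ MulAction.orbit G y₀)

/-- STABA (80 lines, hypotheses S_FG, S_ERG).  For a finite set `F` of `G` let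
`A F = {x ∈ X0 | ∃ h, stabilizer G (h • f x) = closure F}`.  Stabilisers are proper subgroups
(infinite orbits) so by FG the countably many sets `A F` cover `X0`; they are measurable
(`{y | g • y = y}` is Borel, countable operations) and invariant (`f (g • x)` is in the orbit of
`f x` by `red`).  One of them has positive measure, so measure one by ERG. -/
def S_STABA : Prop :=
  ∀ (G X Y : Type) [Group G] [Countable G] [Infinite G] [MulAction G X] [MeasurableSpace X]
    [MulAction G Y] [MeasurableSpace Y] [StandardBorelSpace Y] (μ : Measure X) (f : X → Y)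
    (X0 : Set X), Small G → Setup G X Y μ f X0 →
    ∃ K : Subgroup G, K ≠ ⊤ ∧ ∀ᵐ x ∂μ, ∃ h : G, MulAction.stabilizer G (h • f x) = K

/-- STABB (130 lines, hypotheses S_NORM, S_ERGF, S_ORB).  Suppose `K` is not normal.  Let
`ι : Y → ℝ` be a measurable embedding with values in `(0,1)` (`exists_measurableEmbedding_real`
followed by a bounded strictly monotone map) and
`M x = ⨅ h, (if stabilizer G (h • f x) = K then ι (h • f x) else 1)`.  `M` is measurable
(countable infimum of bounded measurable functions) and `M (g • x) = M x` for `x ∈ X0`, because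
`f (g • x)` is in the orbit of `f x`.  By ERGF (`Y = ℝ`) `M x = c` a.e.  For `x` with some `h₀` such
that `stabilizer (h₀ • f x) = K`: all other `h` with this property are `h = c * h₀` with `c`
normalising `K`, so by NORM `h • f x = d • h₀ • f x` with `d` in a finite set: the infimum is over
finitely many values, so it is attained at some `h` (the value is less than one), and
`ι (h • f x) = c`, i.e. `h • f x = y₀` with `y₀` fixed.  So `f x ∈ orbit G y₀` for a.e. `x`,
contradicting ORB. -/
def S_STABB : Prop :=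
  ∀ (G X Y : Type) [Group G] [Countable G] [Infinite G] [MulAction G X] [MeasurableSpace X]
    [MulAction G Y] [MeasurableSpace Y] [StandardBorelSpace Y] (μ : Measure X) (f : X → Y)
    (X0 : Set X), Small G → Setup G X Y μ f X0 → ∀ K : Subgroup G,
    (∀ᵐ x ∂μ, ∃ h : G, MulAction.stabilizer G (h • f x) = K) → K.Normal

/-- COC (110 lines, no hypotheses).  `X1 = {x ∈ X0 | stabilizer G (f x) = K}` is measurable,
conull, and invariant (`f (g • x) = h • f x` and `h K h⁻¹ = K`).  For `x ∈ X1` let `w g x` be the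
class of any `h` with `f (g • x) = h • f x` (exists by `red`; well defined modulo `K`); for
`x ∉ X1` let `w g x = 1`.  For `x ∈ X1`: `w g x = h` iff `f (g • x) = h • f x`; cocycle identity
from `f (g • h • x) = a • f (h • x) = a • b • f x`.  Measurable level sets:
`{x ∈ X1 | f (g • x) = h • f x}` (`measurableSet_eq_fun`), union `X1ᶜ` for the class of one. -/
def S_COC : Prop :=
  ∀ (G X Y : Type) [Group G] [Countable G] [MulAction G X] [MeasurableSpace X]
    [MulAction G Y] [MeasurableSpace Y] [StandardBorelSpace Y] (μ : Measure X) (f : X → Y)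
    (X0 : Set X), Setup G X Y μ f X0 → ∀ (K : Subgroup G) [K.Normal],
    (∀ᵐ x ∂μ, MulAction.stabilizer G (f x) = K) →
    ∃ w : G → X → G ⧸ K, Cocycle G X (G ⧸ K) w ∧
      ∀ᵐ x ∂μ, MulAction.stabilizer G (f x) = K ∧
        ∀ g h : G, (w g x = (h : G ⧸ K) ↔ f (g • x) = h • f x)

/-- TWIST (90 lines, no hypotheses).  `f' x = (A x).out⁻¹ • f x` (measurable: countably many
level sets of `A`; `measurable_from...`/`Measurable.find` or preimage as a countable union).
If `d` lifts `δ g`, for a.e. `x`: `w g x = A (g • x) * δ g * (A x)⁻¹` is the class of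
`(A (g • x)).out * d * (A x).out⁻¹`, so `f (g • x)` is this element acting on `f x`, and
`f' (g • x) = (A (g • x)).out⁻¹ • f (g • x) = d • f' x`. -/
def S_TWIST : Prop :=
  ∀ (G X Y : Type) [Group G] [Countable G] [MulAction G X] [MeasurableSpace X]
    [MulAction G Y] [MeasurableSpace Y] [StandardBorelSpace Y] (μ : Measure X) (f : X → Y)
    (X0 : Set X), Setup G X Y μ f X0 → ∀ (K : Subgroup G) [K.Normal] (w : G → X → G ⧸ K)
    (A : X → G ⧸ K) (δ : G →* G ⧸ K),
    (∀ᵐ x ∂μ, MulAction.stabilizer G (f x) = K ∧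
        ∀ g h : G, (w g x = (h : G ⧸ K) ↔ f (g • x) = h • f x)) →
    CM A → (∀ g : G, ∀ᵐ x ∂μ, w g x = A (g • x) * δ g * (A x)⁻¹) →
    ∃ f' : X → Y, Measurable f' ∧ (∀ x, f x ∈ MulAction.orbit G (f' x)) ∧
      ∀ g d : G, (d : G ⧸ K) = δ g → ∀ᵐ x ∂μ, f' (g • x) = d • f' x

/-- NAD (90 lines, no hypotheses).  No invariant probability measure for a compressible action.
Enumerate `G` (or use `Encodable`) and let `Y_n = {y | c y = g_n • y` and `c y ≠ g_k • y` for
`k < n}`: a measurable partition of `Y`.  The images `c '' Y_n = g_n • Y_n` are measurable, pairwise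
disjoint (`c` injective), and `m (g_n • Y_n) = m Y_n`, so `m (range c) = ∑' m Y_n = 1`, so
`m (range c)ᶜ = 0`.  The translates of `(range c)ᶜ` cover `Y` (fourth property), so `m univ = 0`,
contradiction. -/
def S_NAD : Prop :=
  ∀ (G Y : Type) [Group G] [Countable G] [MulAction G Y] [MeasurableSpace Y]
    [StandardBorelSpace Y] (m : Measure Y) (c : Y → Y), IsProbabilityMeasure m →
    (∀ g : G, Measurable (fun y : Y => g • y)) →
    (∀ (g : G) (A : Set Y), MeasurableSet A → m ((fun y : Y => g • y) ⁻¹' A) = m A) →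
    Measurable c → Function.Injective c → (∀ y : Y, c y ∈ MulAction.orbit G y) →
    (∀ y : Y, ∃ z ∈ MulAction.orbit G y, ∀ w : Y, c w ≠ z) → False

/-- FREE (80 lines, hypothesis S_PROBS).  The free part of the circle shift is Borel and conull.
It is the complement of the union over `g ≠ 1` of the closed sets `{x | g • x = x}`, which is
contained in `{x | x g = x 1}`; this set is null: the pair `(x g, x 1)` has law
`volume.prod volume` (or: cut the circle into `n` arcs of length `1/n`; `infinitePi_pi` gives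
measure at most `n * (1/n)^2`), and the diagonal is null (`Measure.measure_prod_null` and points are
null). -/
def S_FREE : Prop :=
  ∀ (G : Type) [Group G] [Countable G],
    MeasurableSet {x : XX G | ∀ g : G, g • x = x → g = 1} ∧
      (muX G) {x : XX G | ∀ g : G, g • x = x → g = 1}ᶜ = 0

/-- NULL (25 lines, hypothesis S_PROBS).  A single point `x` lies in `{z | z 1 = x 1}`, whose
measure is the length of a point of the circle (`measurePreserving_eval_infinitePi`), zero. -/
def S_NULL : Prop := ∀ (G : Type) [Group G] (C : Set (XX G)), C.Countable → (muX G) C = 0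

end Pool.Agent.Run7.h420.TM
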